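import Mathlib

set_option autoImplicit false

namespace Pool.Agent.Results.MP_4d6431_an.Blowup

open Set Filter Topology ENNReal

/-- `nrm` is a complete `p`-norm on the real vector space `Z`. -/
structure IsPBanach (p : ℝ) (Z : Type) [AddCommGroup Z] [Module ℝ Z] (nrm : Z → ℝ) : Prop where
  nonneg : ∀ x, 0 ≤ nrm x
  pos : ∀ x, x ≠ 0 → 0 < nrm x
  smul : ∀ (a : ℝ) (x : Z), nrm (a • x) = |a| * nrm x
  tri : ∀ x y, nrm (x + y) ^ p ≤ nrm x ^ p + nrm y ^ p
  complete : ∀ u : ℕ → Z, (∀ ε : ℝ, 0 < ε → ∃ k, ∀ i j, k ≤ i → k ≤ j → nrm (u i - u j) ^ p < ε) →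
    ∃ x, ∀ ε : ℝ, 0 < ε → ∃ k, ∀ i, k ≤ i → nrm (u i - x) ^ p < ε

/-- The Lipschitz constant of a map into a space with quasi-norm `nrm`. -/
noncomputable def Lip {N Z : Type} [MetricSpace N] [AddCommGroup Z] (nrm : Z → ℝ) (f : N → Z) :
    ℝ≥0∞ :=
  ⨆ (x : N) (y : N) (_ : x ≠ y), ENNReal.ofReal (nrm (f x - f y) / dist x y)

/-- The `p`-trace of `N` in `M`, where `N` sits in `M` through `ι`. -/
noncomputable def trace (p : ℝ) {N M : Type} [MetricSpace N] [MetricSpace M] (ι : N → M) : ℝ≥0∞ :=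
  sInf {C : ℝ≥0∞ | 0 < C ∧ ∀ (Z : Type) [AddCommGroup Z] [Module ℝ Z] (nrm : Z → ℝ),
    IsPBanach p Z nrm → ∀ f : N → Z, Lip nrm f < ⊤ →
      ∃ g : M → Z, (∀ x, g (ι x) = f x) ∧ Lip nrm g ≤ C * Lip nrm f}

/-- The absolute `p`-extendability constant of `N`. -/
noncomputable def ae (p : ℝ) (N : Type) [MetricSpace N] : ℝ≥0∞ :=
  ⨆ (M : Type) (_ : MetricSpace M) (ι : N → M) (_ : Isometry ι), trace p ι

noncomputable def h (p : ℝ) (v : ℝ × ℝ) (c : ℝ) : ℝ :=
  |v.1 - c| ^ p + (3 * |v.2 + c|) ^ p + (2 * |c|) ^ p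

noncomputable def Q (p : ℝ) (v : ℝ × ℝ) : ℝ := ⨅ c, h p v c

noncomputable def nm (p : ℝ) (v : ℝ × ℝ) : ℝ := Q p v ^ p⁻¹

lemma h_nonneg (p : ℝ) (v : ℝ × ℝ) (c : ℝ) : 0 ≤ h p v c := by unfold h; positivity

lemma Q_le (p : ℝ) (v : ℝ × ℝ) (c : ℝ) : Q p v ≤ h p v c :=
  ciInf_le ⟨0, by rintro _ ⟨c, rfl⟩; exact h_nonneg p v c⟩ c

lemma Q_nonneg (p : ℝ) (v : ℝ × ℝ) : 0 ≤ Q p v := le_ciInf (h_nonneg p v)

lemma nm_pow {p : ℝ} (hp : 0 < p) (v : ℝ × ℝ) : nm p v ^ p = Q p v :=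
  Real.rpow_inv_rpow (Q_nonneg p v) hp.ne'

lemma nm_nonneg (p : ℝ) (v : ℝ × ℝ) : 0 ≤ nm p v := Real.rpow_nonneg (Q_nonneg p v) _

lemma sub_pow {p : ℝ} (hp : 0 < p) (hp1 : p ≤ 1) {a b c : ℝ} (ha : 0 ≤ a) (hb : 0 ≤ b) (hc : 0 ≤ c)
    (hh : a ≤ b + c) : a ^ p ≤ b ^ p + c ^ p :=
  (Real.rpow_le_rpow ha hh hp.le).trans (Real.rpow_add_le_add_rpow hb hc hp.le hp1)

lemma le_nm {p : ℝ} (hp : 0 < p) (hp1 : p ≤ 1) (v : ℝ × ℝ) : |v.1| ≤ nm p v ∧ |v.2| ≤ nm p v := by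
  constructor
  · rw [← Real.rpow_le_rpow_iff (abs_nonneg _) (nm_nonneg p v) hp, nm_pow hp]
    refine le_ciInf fun c => ?_
    have h1 : |v.1| ≤ |v.1 - c| + 2 * |c| := by
      have := abs_add_le (v.1 - c) c
      rw [sub_add_cancel] at this
      linarith [abs_nonneg c]
    have h2 := sub_pow hp hp1 (abs_nonneg _) (abs_nonneg _) (by positivity) h1
    have h3 : 0 ≤ (3 * |v.2 + c|) ^ p := by positivity
    unfold h; linarith
  · rw [← Real.rpow_le_rpow_iff (abs_nonneg _) (nm_nonneg p v) hp, nm_pow hp]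
    refine le_ciInf fun c => ?_
    have h1 : |v.2| ≤ 3 * |v.2 + c| + 2 * |c| := by
      have := abs_sub (v.2 + c) c
      rw [add_sub_cancel_right] at this
      linarith [abs_nonneg c, abs_nonneg (v.2 + c)]
    have h2 := sub_pow hp hp1 (abs_nonneg _) (by positivity) (by positivity) h1
    have h3 : 0 ≤ |v.1 - c| ^ p := by positivity
    unfold h; linarith

lemma nm_le {p : ℝ} (hp : 0 < p) (v : ℝ × ℝ) (c K : ℝ) (hK : 0 ≤ K) (hh : h p v c ≤ K ^ p) :
    nm p v ≤ K := by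
  rw [← Real.rpow_le_rpow_iff (nm_nonneg p v) hK hp, nm_pow hp]
  exact (Q_le p v c).trans hh

lemma Q_smul_le (p a : ℝ) (v : ℝ × ℝ) : Q p (a • v) ≤ |a| ^ p * Q p v := by
  unfold Q
  rw [Real.mul_iInf_of_nonneg (by positivity)]
  refine le_ciInf fun c => (Q_le p (a • v) (a * c)).trans (le_of_eq ?_)
  unfold h
  simp only [Prod.smul_fst, Prod.smul_snd, smul_eq_mul]
  rw [← mul_sub, ← mul_add, abs_mul, abs_mul, abs_mul, mul_left_comm 3, mul_left_comm 2,
    Real.mul_rpow (abs_nonneg _) (by positivity), Real.mul_rpow (abs_nonneg a) (by positivity),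
    Real.mul_rpow (abs_nonneg a) (by positivity)]
  ring

lemma nm_smul_le {p : ℝ} (hp : 0 < p) (a : ℝ) (v : ℝ × ℝ) : nm p (a • v) ≤ |a| * nm p v := by
  rw [← Real.rpow_le_rpow_iff (nm_nonneg p _) (mul_nonneg (abs_nonneg _) (nm_nonneg p v)) hp,
    Real.mul_rpow (abs_nonneg _) (nm_nonneg p v), nm_pow hp, nm_pow hp]
  exact Q_smul_le p a v

lemma Q_tri {p : ℝ} (hp : 0 < p) (hp1 : p ≤ 1) (v w : ℝ × ℝ) : Q p (v + w) ≤ Q p v + Q p w := by
  have key : ∀ c d, Q p (v + w) ≤ h p v c + h p w d := by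
    intro c d
    refine (Q_le p _ (c + d)).trans ?_
    unfold h
    simp only [Prod.fst_add, Prod.snd_add]
    have h1 : |v.1 + w.1 - (c + d)| ≤ |v.1 - c| + |w.1 - d| := by
      have := abs_add_le (v.1 - c) (w.1 - d)
      rwa [show v.1 - c + (w.1 - d) = v.1 + w.1 - (c + d) by ring] at this
    have h2 : 3 * |v.2 + w.2 + (c + d)| ≤ 3 * |v.2 + c| + 3 * |w.2 + d| := by
      have := abs_add_le (v.2 + c) (w.2 + d)
      rw [show v.2 + c + (w.2 + d) = v.2 + w.2 + (c + d) by ring] at this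
      linarith
    have h3 : 2 * |c + d| ≤ 2 * |c| + 2 * |d| := by linarith [abs_add_le c d]
    have e1 := sub_pow hp hp1 (by positivity) (by positivity) (by positivity) h1
    have e2 := sub_pow hp hp1 (by positivity) (by positivity) (by positivity) h2
    have e3 := sub_pow hp hp1 (by positivity) (by positivity) (by positivity) h3
    linarith
  have k2 : ∀ d, Q p (v + w) - Q p v ≤ h p w d := by
    intro d
    have : Q p (v + w) - h p w d ≤ Q p v := le_ciInf fun c => by linarith [key c d]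
    linarith
  have : Q p (v + w) - Q p v ≤ Q p w := le_ciInf k2
  linarith

lemma isP {p : ℝ} (hp : 0 < p) (hp1 : p ≤ 1) : IsPBanach p (ℝ × ℝ) (nm p) where
  nonneg := nm_nonneg p
  pos := by
    intro x hx
    obtain ⟨h1, h2⟩ := le_nm hp hp1 x
    by_contra hh
    push Not at hh
    apply hx
    ext
    · exact abs_eq_zero.1 (le_antisymm (h1.trans hh) (abs_nonneg _))
    · exact abs_eq_zero.1 (le_antisymm (h2.trans hh) (abs_nonneg _))
  smul := by
    intro a x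
    refine le_antisymm (nm_smul_le hp a x) ?_
    rcases eq_or_ne a 0 with rfl | ha
    · simpa using nm_nonneg p _
    · have := nm_smul_le hp a⁻¹ (a • x)
      rw [inv_smul_smul₀ ha, abs_inv] at this
      have ha' : 0 < |a| := abs_pos.2 ha
      calc |a| * nm p x ≤ |a| * (|a|⁻¹ * nm p (a • x)) := by gcongr
        _ = nm p (a • x) := by field_simp
  tri := by
    intro x y
    rw [nm_pow hp, nm_pow hp, nm_pow hp]
    exact Q_tri hp hp1 x y
  complete := by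
    intro u hu
    have hc : CauchySeq u := by
      rw [Metric.cauchySeq_iff]
      intro ε hε
      obtain ⟨k, hk⟩ := hu (ε ^ p) (by positivity)
      refine ⟨k, fun i hi j hj => ?_⟩
      have h1 := hk i j hi hj
      rw [Real.rpow_lt_rpow_iff (nm_nonneg p _) hε.le hp] at h1
      obtain ⟨h2, h3⟩ := le_nm hp hp1 (u i - u j)
      rw [Prod.dist_eq, max_lt_iff, Real.dist_eq, Real.dist_eq]
      exact ⟨h2.trans_lt h1, h3.trans_lt h1⟩
    obtain ⟨x, hx⟩ := cauchySeq_tendsto_of_complete hc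
    refine ⟨x, fun ε hε => ?_⟩
    have hcont : Continuous (fun v : ℝ × ℝ => h p (v - x) 0) := by
      unfold h
      refine ((Continuous.rpow_const (by fun_prop) fun _ => Or.inr hp.le).add
        (Continuous.rpow_const (by fun_prop) fun _ => Or.inr hp.le)).add continuous_const
    have h0 : h p (x - x) 0 = 0 := by simp [h, Real.zero_rpow hp.ne']
    have ht := (hcont.tendsto x).comp hx
    rw [h0] at ht
    obtain ⟨k, hk⟩ := eventually_atTop.1 (ht.eventually (gt_mem_nhds hε))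
    refine ⟨k, fun i hi => ?_⟩
    rw [nm_pow hp]
    exact (Q_le p _ 0).trans_lt (hk i hi)

lemma near {p K ε : ℝ} (hp : 0 < p) (hK : 0 < K) (hε : 0 < ε) (hpe : (2 * K / ε) ^ p < 2)
    (v : ℝ × ℝ) (hv : nm p v ≤ K) : |v.1| ≤ 2 * ε ∨ |v.2| ≤ 2 * ε ∨ |v.1 + v.2| ≤ 2 * ε := by
  have h1 : Q p v < (2 * K) ^ p := by
    rw [← nm_pow hp]
    exact Real.rpow_lt_rpow (nm_nonneg p v) (by linarith) hp
  obtain ⟨c, hc⟩ := exists_lt_of_ciInf_lt h1
  rw [Real.div_rpow (by positivity) hε.le, div_lt_iff₀ (by positivity)] at hpe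
  have big : ∀ a : ℝ, ε < a → ε ^ p < a ^ p := fun a ha => Real.rpow_lt_rpow hε.le ha hp
  unfold h at hc
  have n1 : 0 ≤ |v.1 - c| ^ p := by positivity
  have n2 : 0 ≤ (3 * |v.2 + c|) ^ p := by positivity
  have n3 : 0 ≤ (2 * |c|) ^ p := by positivity
  have t1 : |v.1| ≤ |v.1 - c| + |c| := by simpa using abs_add_le (v.1 - c) c
  have t2 : |v.2| ≤ |v.2 + c| + |c| := by simpa using abs_sub (v.2 + c) c
  have t3 : |v.1 + v.2| ≤ |v.1 - c| + |v.2 + c| := by
    have := abs_add_le (v.1 - c) (v.2 + c)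
    rwa [show v.1 - c + (v.2 + c) = v.1 + v.2 by ring] at this
  have m1 := abs_nonneg (v.1 - c)
  have m2 := abs_nonneg (v.2 + c)
  have m3 := abs_nonneg c
  rcases le_or_gt |v.1 - c| ε with a1 | a1 <;> rcases le_or_gt (3 * |v.2 + c|) ε with a2 | a2 <;>
    rcases le_or_gt (2 * |c|) ε with a3 | a3
  · left; linarith
  · right; right; linarith
  · left; linarith
  · exfalso; linarith [big _ a2, big _ a3]
  · right; left; linarith
  · exfalso; linarith [big _ a1, big _ a3]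
  · exfalso; linarith [big _ a1, big _ a2]
  · exfalso; linarith [big _ a1, big _ a2]

lemma classify {x y η : ℝ} (hη : η < 1 / 4)
    (hA : |x| ≤ η ∨ |y| ≤ η ∨ |x + y| ≤ η)
    (hB : |x - 1| ≤ η ∨ |y - 0| ≤ η ∨ |x - 1 + (y - 0)| ≤ η)
    (hC : |x - 0| ≤ η ∨ |y - 1| ≤ η ∨ |x - 0 + (y - 1)| ≤ η) :
    (|x| ≤ 2 * η ∧ |y| ≤ 2 * η) ∨ 1 - 2 * η ≤ x ∨ 1 - 2 * η ≤ y := by
  simp only [abs_le] at *
  rcases hA with ⟨a1, a2⟩ | ⟨a1, a2⟩ | ⟨a1, a2⟩ <;> rcases hB with ⟨b1, b2⟩ | ⟨b1, b2⟩ | ⟨b1, b2⟩ <;>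
    rcases hC with ⟨c1, c2⟩ | ⟨c1, c2⟩ | ⟨c1, c2⟩ <;>
    first
    | (right; left; linarith)
    | (right; right; linarith)
    | (left; refine ⟨⟨?_, ?_⟩, ?_, ?_⟩ <;> linarith)

/-- The three point space `{0, 1, 3}`. -/
def N3 : Set ℝ := {0, 1, 3}

def Mm (m : ℕ) : Set ℝ := insert 3 ((fun i : ℕ => (i : ℝ) / (m + 1)) '' Iic (m + 1))

lemma N3_sub (m : ℕ) : N3 ⊆ Mm m := by
  rintro x (rfl | rfl | rfl)
  · exact Or.inr ⟨0, by simp, by simp⟩
  · exact Or.inr ⟨m + 1, by simp, by push_cast; field_simp⟩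
  · exact Or.inl rfl

noncomputable def F (x : N3) : ℝ × ℝ := (x.1 * (3 - x.1) / 2, x.1 * (x.1 - 1) / 6)

lemma Lip_le {N Z : Type} [MetricSpace N] [AddCommGroup Z] (nrm : Z → ℝ) (f : N → Z) (K : ℝ)
    (hf : ∀ x y, x ≠ y → nrm (f x - f y) ≤ K * dist x y) : Lip nrm f ≤ ENNReal.ofReal K := by
  refine iSup_le fun x => iSup_le fun y => iSup_le fun hxy => ENNReal.ofReal_le_ofReal ?_
  rw [div_le_iff₀ (dist_pos.2 hxy)]
  exact hf x y hxy

lemma le_of_Lip {N Z : Type} [MetricSpace N] [AddCommGroup Z] (nrm : Z → ℝ) (f : N → Z) (K : ℝ)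
    (hK : 0 ≤ K) (hf : Lip nrm f ≤ ENNReal.ofReal K) (x y : N) (hxy : x ≠ y) :
    nrm (f x - f y) ≤ K * dist x y := by
  have : ENNReal.ofReal (nrm (f x - f y) / dist x y) ≤ Lip nrm f :=
    le_iSup_of_le x (le_iSup_of_le y (le_iSup_of_le hxy le_rfl))
  have h2 := (ENNReal.ofReal_le_ofReal_iff hK).1 (this.trans hf)
  rwa [div_le_iff₀ (dist_pos.2 hxy)] at h2

lemma Lip_F {p : ℝ} (hp : 0 < p) : Lip (nm p) F ≤ 1 := by
  rw [← ENNReal.ofReal_one]
  apply Lip_le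
  have z := Real.zero_rpow hp.ne'
  rintro ⟨x, hx⟩ ⟨y, hy⟩ hxy
  refine nm_le hp _ (if x = 1 ∧ y = 3 then 1 else if x = 3 ∧ y = 1 then -1 else 0) _
    (by positivity) ?_
  rcases hx with rfl | rfl | rfl <;> rcases hy with rfl | rfl | rfl <;>
    first
    | exact absurd rfl hxy
    | (norm_num [h, F, Subtype.dist_eq, Real.dist_eq, z])

lemma core (m : ℕ) (c : ℝ) (hc0 : 0 < c) (hc : c < m + 1) :
    ∀ᶠ p in 𝓝[>] (0 : ℝ), ENNReal.ofReal c ≤ trace p (Set.inclusion (N3_sub m)) := by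
  have hm : (0 : ℝ) < m + 1 := by positivity
  set η : ℝ := (1 - c / (m + 1)) / 5 with hη
  have hcm : c / (m + 1) < 1 := (div_lt_one hm).2 hc
  have hcm0 : 0 < c / (m + 1) := by positivity
  have hη0 : 0 < η := by rw [hη]; linarith
  have hη1 : η < 1 / 4 := by rw [hη]; linarith
  have ev1 : ∀ᶠ p in 𝓝[>] (0 : ℝ), (2 * (3 * c) / (η / 2)) ^ p < 2 := by
    apply Filter.Eventually.filter_mono nhdsWithin_le_nhds
    have := (Real.continuousAt_const_rpow (a := 2 * (3 * c) / (η / 2)) (b := 0)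
      (by positivity)).tendsto
    rw [Real.rpow_zero] at this
    exact this.eventually (gt_mem_nhds (by norm_num))
  filter_upwards [ev1, Ioc_mem_nhdsGT (zero_lt_one' ℝ)] with p hpe hp
  obtain ⟨hp, hp1⟩ := hp
  apply le_sInf
  rintro C ⟨-, hC⟩
  by_contra hlt
  push Not at hlt
  obtain ⟨g, hg, hL⟩ := hC (ℝ × ℝ) (nm p) (isP hp hp1) F ((Lip_F hp).trans_lt one_lt_top)
  have hL2 : Lip (nm p) g ≤ ENNReal.ofReal c := by
    refine hL.trans (le_trans ?_ hlt.le)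
    calc C * Lip (nm p) F ≤ C * 1 := by gcongr; exact Lip_F hp
      _ = C := mul_one C
  have hb := le_of_Lip (nm p) g c hc0.le hL2
  have hmem : ∀ x : Mm m, 0 ≤ x.1 ∧ x.1 ≤ 3 := by
    rintro ⟨x, rfl | ⟨i, hi, rfl⟩⟩
    · norm_num
    · have : (i : ℝ) ≤ m + 1 := by exact_mod_cast hi
      refine ⟨by positivity, ?_⟩
      show (i : ℝ) / (m + 1) ≤ 3
      rw [div_le_iff₀ hm]; linarith
  have hn : ∀ x y : Mm m, |(g x - g y).1| ≤ η ∨ |(g x - g y).2| ≤ η ∨
      |(g x - g y).1 + (g x - g y).2| ≤ η := by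
    intro x y
    rcases eq_or_ne x y with rfl | hxy
    · left; simpa using hη0.le
    · have h1 : dist x y ≤ 3 := by
        rw [Subtype.dist_eq, Real.dist_eq, abs_le]
        constructor <;> linarith [hmem x, hmem y]
      have := near hp (by positivity : 0 < 3 * c) (by positivity : 0 < η / 2) hpe (g x - g y)
        ((hb x y hxy).trans (by nlinarith))
      simpa [mul_div_cancel₀] using this
  have g0 : g (Set.inclusion (N3_sub m) ⟨0, by simp [N3]⟩) = (0, 0) := by rw [hg]; simp [F]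
  have g1 : g (Set.inclusion (N3_sub m) ⟨1, by simp [N3]⟩) = (1, 0) := by rw [hg]; norm_num [F]
  have g3 : g (Set.inclusion (N3_sub m) ⟨3, by simp [N3]⟩) = (0, 1) := by rw [hg]; norm_num [F]
  have hcl : ∀ x : Mm m, (|(g x).1| ≤ 2 * η ∧ |(g x).2| ≤ 2 * η) ∨ 1 - 2 * η ≤ (g x).1 ∨
      1 - 2 * η ≤ (g x).2 := by
    intro x
    have a0 := hn x (Set.inclusion (N3_sub m) ⟨0, by simp [N3]⟩)
    have a1 := hn x (Set.inclusion (N3_sub m) ⟨1, by simp [N3]⟩)
    have a3 := hn x (Set.inclusion (N3_sub m) ⟨3, by simp [N3]⟩)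
    rw [g0] at a0
    rw [g1] at a1
    rw [g3] at a3
    exact classify hη1 (by simpa using a0) a1 a3
  have hind : ∀ (i : ℕ) (hi : i ≤ m + 1),
      |(g ⟨(i : ℝ) / (m + 1), Or.inr ⟨i, hi, rfl⟩⟩).1| ≤ 2 * η ∧
      |(g ⟨(i : ℝ) / (m + 1), Or.inr ⟨i, hi, rfl⟩⟩).2| ≤ 2 * η := by
    intro i
    induction i with
    | zero =>
      intro hi
      have : (⟨((0 : ℕ) : ℝ) / (m + 1), Or.inr ⟨0, hi, rfl⟩⟩ : Mm m)
          = Set.inclusion (N3_sub m) ⟨0, by simp [N3]⟩ := Subtype.ext (by simp)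
      rw [this, g0]
      simp [hη0.le]
    | succ i ih =>
      intro hi
      obtain ⟨i1, i2⟩ := ih (by omega)
      set x : Mm m := ⟨(i : ℝ) / (m + 1), Or.inr ⟨i, (by omega : i ≤ m + 1), rfl⟩⟩ with hx
      set y : Mm m := ⟨((i + 1 : ℕ) : ℝ) / (m + 1), Or.inr ⟨i + 1, hi, rfl⟩⟩ with hy
      have hd : dist y x = 1 / (m + 1) := by
        rw [Subtype.dist_eq, Real.dist_eq, hx, hy]
        push_cast
        rw [← sub_div, add_sub_cancel_left, abs_of_pos (by positivity)]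
      have hne : y ≠ x := by
        intro he
        rw [he, dist_self] at hd
        have : (0 : ℝ) < 1 / (m + 1) := by positivity
        linarith
      have h1 := hb y x hne
      rw [hd, mul_one_div] at h1
      obtain ⟨l1, l2⟩ := le_nm hp hp1 (g y - g x)
      simp only [Prod.fst_sub, Prod.snd_sub] at l1 l2
      rw [abs_le] at i1 i2
      rcases hcl y with hh | hh | hh
      · exact hh
      · exfalso; linarith [le_abs_self ((g y).1 - (g x).1), i1.2]
      · exfalso; linarith [le_abs_self ((g y).2 - (g x).2), i2.2]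
  have hlast := (hind (m + 1) le_rfl).1
  have : (⟨((m + 1 : ℕ) : ℝ) / (m + 1), Or.inr ⟨m + 1, mem_Iic.2 le_rfl, rfl⟩⟩ : Mm m)
      = Set.inclusion (N3_sub m) ⟨1, by simp [N3]⟩ :=
    Subtype.ext (by show ((m + 1 : ℕ) : ℝ) / (m + 1) = 1; push_cast; field_simp)
  rw [this, g1] at hlast
  norm_num at hlast
  linarith

lemma iso (m : ℕ) : Isometry (Set.inclusion (N3_sub m)) := fun _ _ => rfl

lemma ae_N3 : Tendsto (fun p => ae p N3) (𝓝[>] 0) (𝓝 ⊤) := by
  rw [ENNReal.tendsto_nhds_top_iff_nat]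
  intro n
  filter_upwards [core (n + 1) (n + 1) (by positivity) (by push_cast; linarith)] with p hp
  have h1 : trace p (Set.inclusion (N3_sub (n + 1))) ≤ ae p N3 :=
    le_iSup_of_le (Mm (n + 1)) (le_iSup_of_le inferInstance
      (le_iSup_of_le (Set.inclusion (N3_sub (n + 1))) (le_iSup_of_le (iso _) le_rfl)))
  refine lt_of_lt_of_le ?_ (hp.trans h1)
  rw [← ENNReal.ofReal_natCast]
  exact (ENNReal.ofReal_lt_ofReal_iff (by positivity)).2 (by linarith)

/-- `ae_p(n)`: the supremum over nonempty metric spaces with at most `n` points. -/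
noncomputable def aeN (p : ℝ) (n : ℕ) : ℝ≥0∞ :=
  ⨆ (N : Type) (_ : MetricSpace N) (_ : Nonempty N ∧ ENat.card N ≤ n), ae p N

/-- `S(n, m)`, with the limit as `p → 0` written as the lower limit. -/
noncomputable def S (n m : ℕ) : ℝ≥0∞ :=
  ⨆ (N : Type) (_ : MetricSpace N) (M : Type) (_ : MetricSpace M) (ι : N → M)
    (_ : Isometry ι ∧ Nonempty N ∧ ENat.card N ≤ n ∧ (Set.range ι)ᶜ.encard ≤ m),
    liminf (fun p => trace p ι) (𝓝[>] 0)

lemma card_N3 {n : ℕ} (hn : 3 ≤ n) : Nonempty N3 ∧ ENat.card N3 ≤ n := by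
  refine ⟨⟨⟨0, by simp [N3]⟩⟩, ?_⟩
  have h1 : N3.encard ≤ 3 := by
    unfold N3
    refine (Set.encard_insert_le _ _).trans ?_
    have := Set.encard_insert_le ({3} : Set ℝ) 1
    rw [Set.encard_singleton] at this
    calc _ ≤ (1 + 1 : ℕ∞) + 1 := by gcongr
      _ = 3 := by norm_num
  exact le_trans h1 (by exact_mod_cast hn)

lemma card_compl (m : ℕ) : (Set.range (Set.inclusion (N3_sub m)))ᶜ.encard ≤ m := by
  rw [← Subtype.val_injective.encard_image]
  have : Subtype.val '' (Set.range (Set.inclusion (N3_sub m)))ᶜ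
      ⊆ (fun i : ℕ => (i : ℝ) / (m + 1)) '' (Finset.Icc 1 m : Set ℕ) := by
    rintro _ ⟨⟨x, hx⟩, hn, rfl⟩
    have hn' : x ∉ N3 := fun hh => hn ⟨⟨x, hh⟩, rfl⟩
    rcases hx with rfl | ⟨i, hi, rfl⟩
    · exact absurd (by simp [N3]) hn'
    · refine ⟨i, ?_, rfl⟩
      have h0 : i ≠ 0 := by
        rintro rfl
        exact hn' (by simp [N3])
      have h1 : i ≠ m + 1 := by
        rintro rfl
        apply hn'
        have : ((m + 1 : ℕ) : ℝ) / (m + 1) = 1 := by push_cast; field_simp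
        show ((m + 1 : ℕ) : ℝ) / (m + 1) ∈ N3
        rw [this]; simp [N3]
      have h2 : i ≤ m + 1 := hi
      simp only [Finset.coe_Icc, mem_Icc]
      omega
  refine (Set.encard_le_encard this).trans ((Set.encard_image_le _ _).trans ?_)
  rw [Set.encard_coe_eq_coe_finsetCard]
  simp

theorem result :
    (∀ n : ℕ, 3 ≤ n → Tendsto (fun p => aeN p n) (𝓝[>] 0) (𝓝 ⊤)) ∧
    (∀ n m : ℕ, 3 ≤ n → (m : ℝ≥0∞) + 1 ≤ S n m) := by
  constructor
  · intro n hn
    refine tendsto_nhds_top_mono ae_N3 (Eventually.of_forall fun p => ?_)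
    exact le_iSup_of_le N3 (le_iSup_of_le inferInstance (le_iSup_of_le (card_N3 hn) le_rfl))
  · intro n m hn
    have h1 : liminf (fun p => trace p (Set.inclusion (N3_sub m))) (𝓝[>] 0) ≤ S n m :=
      le_iSup_of_le N3 (le_iSup_of_le inferInstance (le_iSup_of_le (Mm m)
        (le_iSup_of_le inferInstance (le_iSup_of_le (Set.inclusion (N3_sub m))
          (le_iSup_of_le ⟨iso m, (card_N3 hn).1, (card_N3 hn).2, card_compl m⟩ le_rfl)))))
    refine le_trans ?_ h1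
    apply le_of_forall_lt_imp_le_of_dense
    intro a ha
    have hat : a ≠ ⊤ := ne_top_of_lt ha
    rcases eq_or_ne a 0 with rfl | ha0
    · exact zero_le
    · have h2 : a.toReal < m + 1 := by
        have := (ENNReal.toReal_lt_toReal hat (by finiteness)).2 ha
        rwa [ENNReal.toReal_add (by finiteness) (by finiteness), ENNReal.toReal_natCast,
          ENNReal.toReal_one] at this
      have h3 := core m a.toReal (ENNReal.toReal_pos ha0 hat) h2
      rw [ENNReal.ofReal_toReal hat] at h3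
      exact le_liminf_of_le (by isBoundedDefault) h3

end Pool.Agent.Results.MP_4d6431_an.Blowup
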